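import Mathlib
import Pool.Agent.Lib.H54E.Main

set_option autoImplicit false

namespace Pool.Agent.Results.MP_eec89f_mp.Reduction

/-- The Newtonian potential `U = ∑_{i<j} m_i m_j / |y_i - y_j|`. -/
noncomputable def newton {E : Type} [NormedAddCommGroup E] {n : ℕ} (m : Fin n → ℝ)
    (y : Fin n → E) : ℝ :=
  ∑ i : Fin n, ∑ j ∈ Finset.Ioi i, m i * m j / ‖y i - y j‖

/-- The centre of mass. -/
noncomputable def centre {E : Type} [NormedAddCommGroup E] [NormedSpace ℝ E] {n : ℕ}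
    (m : Fin n → ℝ) (y : Fin n → E) : E :=
  (∑ k : Fin n, m k)⁻¹ • ∑ k : Fin n, m k • y k

/-- The moment of inertia with respect to the centre of mass. -/
noncomputable def inertia {E : Type} [NormedAddCommGroup E] [NormedSpace ℝ E] {n : ℕ}
    (m : Fin n → ℝ) (y : Fin n → E) : ℝ :=
  ∑ i : Fin n, m i * ‖y i - centre m y‖ ^ 2

/-- The scale invariant potential `U √I`. -/
noncomputable def pot {E : Type} [NormedAddCommGroup E] [NormedSpace ℝ E] {n : ℕ}
    (m : Fin n → ℝ) (y : Fin n → E) : ℝ :=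
  newton m y * Real.sqrt (inertia m y)

/-- `x` is a critical point of `F` with Hessian kernel of dimension at least `5`. -/
def IsDegenerate {C : Type} [NormedAddCommGroup C] [NormedSpace ℝ C] (F : C → ℝ) (x : C) :
    Prop :=
  fderiv ℝ F x = 0 ∧ ∃ v : Fin 5 → C,
    LinearIndependent ℝ v ∧ ∀ k : Fin 5, fderiv ℝ (fderiv ℝ F) x (v k) = 0

/-- The set `Σ_n` of the critical mass vectors (planar `n`-body problem). -/
def Sigma (n : ℕ) : Set (Fin n → ℝ) :=
  {m : Fin n → ℝ | (∀ i, 0 < m i) ∧ ∃ x : Fin n → EuclideanSpace ℝ (Fin 2),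
    Function.Injective x ∧ IsDegenerate (pot m) x}

/-- The weight `m_j (|x_i - x_j|⁻³ - lam)`. -/
noncomputable def wt {E : Type} [NormedAddCommGroup E] {n : ℕ} (m : Fin n → ℝ) (x : Fin n → E)
    (lam : ℝ) (i j : Fin n) : ℝ :=
  m j * ((‖x i - x j‖ ^ 3)⁻¹ - lam)

/-- `x` is a central configuration with multiplier `lam`. -/
def Central {E : Type} [NormedAddCommGroup E] [NormedSpace ℝ E] {n : ℕ} (m : Fin n → ℝ)
    (x : Fin n → E) (lam : ℝ) : Prop :=
  ∀ i, ∑ j, wt m x lam i j • (x i - x j) = 0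

/-- The linearised equations in the direction `v`. -/
def Linear {E : Type} [NormedAddCommGroup E] [InnerProductSpace ℝ E] {n : ℕ} (m : Fin n → ℝ)
    (x v : Fin n → E) (lam : ℝ) : Prop :=
  ∀ i, ∑ j, (wt m x lam i j • (v i - v j)
    - (3 * m j * inner ℝ (x i - x j) (v i - v j) * (‖x i - x j‖ ^ 5)⁻¹) • (x i - x j)) = 0

/-- The mixed equations. -/
def Mixed {E : Type} [NormedAddCommGroup E] [InnerProductSpace ℝ E] {n : ℕ} (m : Fin n → ℝ)
    (x v : Fin n → E) (lam : ℝ) : Prop :=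
  ∀ i, ∑ j, wt m x lam i j * inner ℝ (x i - x j) (v i - v j) = 0

/-- Rotation of the plane by a right angle. -/
noncomputable def rot (z : EuclideanSpace ℝ (Fin 2)) : EuclideanSpace ℝ (Fin 2) :=
  !₂[-(z 1), z 0]

/-- `v` is an infinitesimal symmetry of `x`. -/
def IsSym {n : ℕ} (x v : Fin n → EuclideanSpace ℝ (Fin 2)) : Prop :=
  ∃ (a b : ℝ) (c : EuclideanSpace ℝ (Fin 2)), ∀ i, v i = a • x i + b • rot (x i) + c

/-- All points are on one line. -/
def OnLine {E : Type} [NormedAddCommGroup E] [NormedSpace ℝ E] {n : ℕ} (x : Fin n → E) : Prop :=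
  ∃ (z e : E) (t : Fin n → ℝ), ∀ i, x i = z + t i • e

/-- The mass vectors for which the system has a solution. -/
def Solvable (n : ℕ) : Set (Fin n → ℝ) :=
  {m | ∃ (x v : Fin n → EuclideanSpace ℝ (Fin 2)) (lam : ℝ), 0 < lam ∧ Function.Injective x ∧
    Central m x lam ∧ Linear m x v lam ∧ Mixed m x v lam ∧ ¬ OnLine x ∧ ¬ IsSym x v}

/-- For every `n ≥ 2` and almost every critical mass vector the system has a solution. -/
theorem result (n : ℕ) (hn : 2 ≤ n) :
    MeasureTheory.volume (Sigma n \ Solvable n) = 0 := by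
  refine MeasureTheory.measure_mono_null ?_ (Pool.Agent.Lib.H54E.reduction n hn)
  rintro m ⟨⟨hm, x, hx, hc, hv⟩, hs⟩
  refine ⟨⟨hm, pot m, fun y => rfl, x, fun i j hij h => hij (hx h), hc, hv⟩, ?_⟩
  rintro ⟨y, v, lam, h1, h2, h3⟩
  apply hs
  refine ⟨y, v, lam, h1.lam_pos, ?_, h1.cc, h1.lin, h1.mix, h2, ?_⟩
  · intro i j hij
    by_contra hne
    exact h1.ne i j hne hij
  · rintro ⟨a, b, c, h⟩
    exact h3 ⟨a, b, c, h⟩

end Pool.Agent.Results.MP_eec89f_mp.Reduction
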