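import Mathlib
import Pool.Agent.Lib.H54E.Main

set_option autoImplicit false

namespace Pool.Agent.Results.MP_eec89f_mp.SigmaFour

/-- The Newtonian potential `U = ∑_{i<j} m_i m_j / |y_i - y_j|`. -/
noncomputable def newton {E : Type} [NormedAddCommGroup E] {n : ℕ} (m : Fin n → ℝ)
    (y : Fin n → E) : ℝ :=
  ∑ i : Fin n, ∑ j ∈ Finset.Ioi i, m i * m j / ‖y i - y j‖

/-- The centre of mass. -/
noncomputable def centre {E : Type} [NormedAddCommGroup E] [NormedSpace ℝ E] {n : ℕ}
    (m : Fin n → ℝ) (y : Fin n → E) : E :=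
  (∑ k : Fin n, m k)⁻¹ • ∑ k : Fin n, m k • y k

/-- The moment of inertia with respect to the centre of mass. -/
noncomputable def inertia {E : Type} [NormedAddCommGroup E] [NormedSpace ℝ E] {n : ℕ}
    (m : Fin n → ℝ) (y : Fin n → E) : ℝ :=
  ∑ i : Fin n, m i * ‖y i - centre m y‖ ^ 2

/-- The scale invariant potential `U √I`. -/
noncomputable def pot {E : Type} [NormedAddCommGroup E] [NormedSpace ℝ E] {n : ℕ}
    (m : Fin n → ℝ) (y : Fin n → E) : ℝ :=
  newton m y * Real.sqrt (inertia m y)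

/-- `x` is a critical point of `F` with Hessian kernel of dimension at least `5`. -/
def IsDegenerate {C : Type} [NormedAddCommGroup C] [NormedSpace ℝ C] (F : C → ℝ) (x : C) :
    Prop :=
  fderiv ℝ F x = 0 ∧ ∃ v : Fin 5 → C,
    LinearIndependent ℝ v ∧ ∀ k : Fin 5, fderiv ℝ (fderiv ℝ F) x (v k) = 0

/-- The set `Σ_n` of the critical mass vectors (planar `n`-body problem). -/
def Sigma (n : ℕ) : Set (Fin n → ℝ) :=
  {m : Fin n → ℝ | (∀ i, 0 < m i) ∧ ∃ x : Fin n → EuclideanSpace ℝ (Fin 2),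
    Function.Injective x ∧ IsDegenerate (pot m) x}

/-- The set `Σ_4` of the critical mass vectors has Lebesgue measure zero. -/
theorem result : MeasureTheory.volume (Sigma 4) = 0 := by
  refine MeasureTheory.measure_mono_null ?_ Pool.Agent.Lib.H54E.critical_four
  rintro m ⟨hm, x, hx, hc, hv⟩
  exact ⟨hm, pot m, fun y => rfl, x, fun i j hij h => hij (hx h), hc, hv⟩

end Pool.Agent.Results.MP_eec89f_mp.SigmaFour
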